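import Mathlib
import Pool.Agent.Helper4.CD.Defs

/-!
Project CX, rank lemma: the rows vanishing on a circuit of a `d`-dimensional system are not contained in the span of
`d - 2` linear forms.
-/

set_option autoImplicit false

namespace Pool.Agent.Helper62.CX

open Module Pool.Agent.Helper4.CD

/-- If the rows have trivial common kernel, `D` is a circuit, and every row vanishing on `D` vanishes on the common
kernel of `m` linear forms, then `dim V ≤ m + 1`. -/
theorem rank_lemma {K : Type} [Field K] {V : Type} [AddCommGroup V] [Module K V] [FiniteDimensional K V]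
    {κ : Type} (c : κ → Dual K V) (D : V) (hD : IsCircuit c D) (hsp : ∀ x : V, (∀ k, c k x = 0) → x = 0)
    (m : ℕ) (L : Fin m → Dual K V) (hm : m + 2 ≤ finrank K V)
    (h : ∀ k, c k D = 0 → ∀ x : V, (∀ j, L j x = 0) → c k x = 0) : False := by
  obtain ⟨hD0, hDm⟩ := hD
  -- a vector in the common kernel outside the span of `D`
  have hlin : finrank K V ≤ finrank K (LinearMap.ker (LinearMap.pi L)) + m := by
    have h1 := LinearMap.finrank_range_add_finrank_ker (LinearMap.pi L)
    have h2 : finrank K (LinearMap.range (LinearMap.pi L)) ≤ m := by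
      have := Submodule.finrank_le (LinearMap.range (LinearMap.pi L))
      simpa using this
    omega
  have hex : ∃ x ∈ LinearMap.ker (LinearMap.pi L), x ∉ Submodule.span K ({D} : Set V) := by
    by_contra hcon
    push Not at hcon
    have h1 : LinearMap.ker (LinearMap.pi L) ≤ Submodule.span K ({D} : Set V) := hcon
    have h2 := Submodule.finrank_mono h1
    have h3 : finrank K (Submodule.span K ({D} : Set V)) ≤ 1 := by
      rw [finrank_span_singleton hD0]
    omega
  obtain ⟨x, hx, hxD⟩ := hex
  have hLx : ∀ j, L j x = 0 := by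
    intro j
    have := congrFun (LinearMap.mem_ker.1 hx) j
    simpa using this
  have hk : ∃ k, c k D ≠ 0 := by
    by_contra hcon
    push Not at hcon
    exact hD0 (hsp D hcon)
  obtain ⟨k₀, hk₀⟩ := hk
  have hne : x - (c k₀ x / c k₀ D) • D ≠ 0 := by
    intro h0
    apply hxD
    rw [sub_eq_zero.1 h0]
    exact Submodule.smul_mem _ _ (Submodule.mem_span_singleton_self D)
  have hz : ∀ k, c k D = 0 → c k (x - (c k₀ x / c k₀ D) • D) = 0 := by
    intro k hkD
    rw [map_sub, map_smul, hkD, h k hkD x hLx]
    simp
  have h0 : c k₀ (x - (c k₀ x / c k₀ D) • D) = 0 := by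
    rw [map_sub, map_smul, smul_eq_mul, div_mul_cancel₀ _ hk₀, sub_self]
  exact hk₀ (hDm _ hne hz k₀ h0)

end Pool.Agent.Helper62.CX
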